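import Mathlib

/-!
# Logarithmic capacity and n-th diameters of plane sets
-/

set_option autoImplicit false

open MeasureTheory
open scoped ENNReal

namespace Pool.Agent.R222.Fekete

/-- The positive part of `log |z - w|`. -/
noncomputable def logPos (z w : ℂ) : ℝ≥0∞ := ENNReal.ofReal (Real.log ‖z - w‖)

open Classical in
/-- The negative part of `log |z - w|`, equal to `∞` when `z = w`. -/
noncomputable def logNeg (z w : ℂ) : ℝ≥0∞ :=
  if z = w then ⊤ else ENNReal.ofReal (-Real.log ‖z - w‖)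

/-- The energy `∬ log |z - w| dμ(w) dμ(z)` as the difference of the integrals of the positive and the
negative part (an element of `[-∞, ∞)` when `μ` is finite with bounded support). -/
noncomputable def energy (μ : Measure ℂ) : EReal :=
  ((∫⁻ z, ∫⁻ w, logPos z w ∂μ ∂μ : ℝ≥0∞) : EReal) - ((∫⁻ z, ∫⁻ w, logNeg z w ∂μ ∂μ : ℝ≥0∞) : EReal)

/-- The logarithmic capacity of a compact set: the exponential of the supremum of the energies of
the Borel probability measures carried by `E` (with `exp (-∞) = 0`). -/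
noncomputable def capacity (E : Set ℂ) : ℝ≥0∞ :=
  EReal.exp (⨆ (μ : Measure ℂ) (_ : IsProbabilityMeasure μ) (_ : μ Eᶜ = 0), energy μ)

/-- The `n`-th diameter: the supremum over `w_1, …, w_n ∈ E` of
`∏_{j < k} |w_j - w_k| ^ (2 / (n (n - 1)))`. -/
noncomputable def nthDiam (n : ℕ) (E : Set ℂ) : ℝ≥0∞ :=
  ⨆ (w : Fin n → ℂ) (_ : ∀ i, w i ∈ E),
    ∏ i, ∏ j ∈ Finset.Ioi i, (ENNReal.ofReal ‖w i - w j‖) ^ (2 / ((n:ℝ) * (n - 1)))

end Pool.Agent.R222.Fekete
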