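import Mathlib
import Pool.Agent.R222.Fekete.Defs

set_option autoImplicit false

open MeasureTheory Set Real
open scoped ENNReal

namespace Pool.Agent.R222.Fekete

open Classical in
/-- The kernel `log (D / |z - w|)` with value `∞` on the diagonal. -/
noncomputable def ker (D : ℝ) (z w : ℂ) : ℝ≥0∞ :=
  if z = w then ⊤ else ENNReal.ofReal (log D - log ‖z - w‖)

lemma ker_symm (D : ℝ) (z w : ℂ) : ker D z w = ker D w z := by
  unfold ker
  rw [norm_sub_rev]
  simp only [eq_comm]

lemma measurable_ker (D : ℝ) : Measurable (fun p : ℂ × ℂ => ker D p.1 p.2) := by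
  unfold ker
  refine Measurable.ite (measurableSet_eq_fun measurable_fst measurable_snd) measurable_const ?_
  fun_prop

lemma measurable_logNeg : Measurable (fun p : ℂ × ℂ => logNeg p.1 p.2) := by
  unfold logNeg
  refine Measurable.ite (measurableSet_eq_fun measurable_fst measurable_snd) measurable_const ?_
  fun_prop

lemma measurable_logPos : Measurable (fun p : ℂ × ℂ => logPos p.1 p.2) := by
  unfold logPos
  fun_prop

/-- the energy with respect to the kernel -/
noncomputable def gen (D : ℝ) (μ : Measure ℂ) : ℝ≥0∞ := ∫⁻ z, ∫⁻ w, ker D z w ∂μ ∂μ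

lemma pointwise_id {D : ℝ} (hD : 1 ≤ D) {z w : ℂ} (h : ‖z - w‖ ≤ D) :
    logPos z w + ker D z w = ENNReal.ofReal (log D) + logNeg z w := by
  unfold logPos ker logNeg
  by_cases hzw : z = w
  · simp [hzw]
  · simp only [hzw, if_false]
    have hpos : 0 < ‖z - w‖ := norm_pos_iff.2 (sub_ne_zero.2 hzw)
    have hlog : log ‖z - w‖ ≤ log D := log_le_log hpos h
    have hD0 : 0 ≤ log D := log_nonneg hD
    rcases le_total 0 (log ‖z - w‖) with h0 | h0
    · rw [← ENNReal.ofReal_add h0 (by linarith), ENNReal.ofReal_of_nonpos (p := -log ‖z - w‖)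
        (by linarith)]
      simp
    · rw [ENNReal.ofReal_of_nonpos h0, zero_add, ← ENNReal.ofReal_add hD0 (by linarith)]
      rfl

lemma energy_eq {μ : Measure ℂ} [IsProbabilityMeasure μ] {E : Set ℂ} (hμ : μ Eᶜ = 0) {D : ℝ}
    (hD : 1 ≤ D) (hE : ∀ z ∈ E, ∀ w ∈ E, ‖z - w‖ ≤ D) :
    energy μ = ((log D : ℝ) : EReal) - ((gen D μ : ℝ≥0∞) : EReal) := by
  have hae : ∀ᵐ z ∂μ, z ∈ E := hμ
  have hD0 : 0 ≤ log D := log_nonneg hD
  set P : ℝ≥0∞ := ∫⁻ z, ∫⁻ w, logPos z w ∂μ ∂μ with hP
  set Nn : ℝ≥0∞ := ∫⁻ z, ∫⁻ w, logNeg z w ∂μ ∂μ with hN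
  have h1 : P + gen D μ = ENNReal.ofReal (log D) + Nn := by
    have e1 : P + gen D μ = ∫⁻ z, ∫⁻ w, (logPos z w + ker D z w) ∂μ ∂μ := by
      rw [hP, gen, ← lintegral_add_left (measurable_logPos.lintegral_prod_right')]
      refine lintegral_congr fun z => ?_
      exact (lintegral_add_left (f := fun w => logPos z w)
        (measurable_logPos.comp measurable_prodMk_left) _).symm
    have e2 : ENNReal.ofReal (log D) + Nn
        = ∫⁻ z, ∫⁻ w, (ENNReal.ofReal (log D) + logNeg z w) ∂μ ∂μ := by
      have e3 : ENNReal.ofReal (log D) = ∫⁻ _z : ℂ, ENNReal.ofReal (log D) ∂μ := by simp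
      rw [hN]
      conv_lhs => rw [e3]
      rw [← lintegral_add_left measurable_const]
      refine lintegral_congr fun z => ?_
      rw [lintegral_add_left measurable_const]
      simp
    rw [e1, e2]
    refine lintegral_congr_ae ?_
    filter_upwards [hae] with z hz
    refine lintegral_congr_ae ?_
    filter_upwards [hae] with w hw
    exact pointwise_id hD (hE z hz w hw)
  have hPle : P ≤ ENNReal.ofReal (log D) := by
    have e3 : ENNReal.ofReal (log D) = ∫⁻ _z : ℂ, ∫⁻ _w : ℂ, ENNReal.ofReal (log D) ∂μ ∂μ := by simp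
    rw [hP, e3]
    refine lintegral_mono_ae ?_
    filter_upwards [hae] with z hz
    refine lintegral_mono_ae ?_
    filter_upwards [hae] with w hw
    unfold logPos
    by_cases hzw : z = w
    · simp [hzw]
    · exact ENNReal.ofReal_le_ofReal (log_le_log (norm_pos_iff.2 (sub_ne_zero.2 hzw))
        (hE z hz w hw))
  have hPtop : P ≠ ⊤ := (hPle.trans_lt ENNReal.ofReal_lt_top).ne
  unfold energy
  rw [← hP, ← hN]
  by_cases hNt : Nn = ⊤
  · have hG : gen D μ = ⊤ := by
      rw [hNt, add_top] at h1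
      exact (ENNReal.add_eq_top.1 h1).resolve_left hPtop
    rw [hNt, hG, EReal.coe_ennreal_top, EReal.sub_top, EReal.sub_top]
  · have hGt : gen D μ ≠ ⊤ := by
      intro hG
      rw [hG, add_top] at h1
      exact (ENNReal.add_ne_top.2 ⟨ENNReal.ofReal_ne_top, hNt⟩) h1.symm
    lift P to NNReal using hPtop with p
    lift Nn to NNReal using hNt with q
    set G := gen D μ with hGdef
    lift G to NNReal using hGt with g
    have h2 : (p:ℝ) + g = log D + q := by
      have := congrArg ENNReal.toReal h1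
      rw [ENNReal.toReal_add ENNReal.coe_ne_top ENNReal.coe_ne_top,
        ENNReal.toReal_add ENNReal.ofReal_ne_top ENNReal.coe_ne_top,
        ENNReal.toReal_ofReal hD0] at this
      simpa using this
    have h3 : (p:ℝ) - q = log D - g := by linarith
    rw [EReal.coe_nnreal_eq_coe_real, EReal.coe_nnreal_eq_coe_real, EReal.coe_nnreal_eq_coe_real]
    exact_mod_cast h3

end Pool.Agent.R222.Fekete
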