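import Mathlib
import Pool.Agent.R222.Fekete.Defs
import Pool.Agent.R222.Fekete.Energy

set_option autoImplicit false

open MeasureTheory Set Real
open scoped ENNReal

namespace Pool.Agent.R222.Fekete

/-- normalised Lebesgue measure on `(0, 2π]` -/
noncomputable def nu : Measure ℝ := ENNReal.ofReal ((2 * π)⁻¹) • volume.restrict (Ioc 0 (2 * π))

instance : IsProbabilityMeasure nu := by
  constructor
  unfold nu
  rw [Measure.smul_apply, Measure.restrict_apply_univ, Real.volume_Ioc, smul_eq_mul,
    ← ENNReal.ofReal_mul (by positivity), sub_zero, inv_mul_cancel₀ (by positivity),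
    ENNReal.ofReal_one]

lemma integral_nu (F : ℝ → ℝ) : ∫ θ, F θ ∂nu = (2 * π)⁻¹ * ∫ θ in (0:ℝ)..(2 * π), F θ := by
  unfold nu
  rw [integral_smul_measure, ENNReal.toReal_ofReal (by positivity), smul_eq_mul,
    intervalIntegral.integral_of_le (by positivity)]

lemma integrable_nu {F : ℝ → ℝ} (hF : IntervalIntegrable F volume 0 (2 * π)) :
    Integrable F nu := by
  unfold nu
  refine Integrable.smul_measure ?_ ENNReal.ofReal_ne_top
  exact (intervalIntegrable_iff_integrableOn_Ioc_of_le (by positivity)).1 hF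

lemma ae_ne (z c : ℂ) {r : ℝ} (hr : 0 < r) : ∀ᵐ θ ∂nu, z ≠ circleMap c r θ := by
  unfold nu
  refine Measure.ae_smul_measure ?_ _
  rw [ae_restrict_iff' measurableSet_Ioc]
  have hsub : ({θ | θ ∈ Ioc 0 (2 * π) ∧ z = circleMap c r θ} : Set ℝ).Subsingleton := by
    rintro θ ⟨hθ, h1⟩ φ ⟨hφ, h2⟩
    have hinj := injOn_circleMap_of_abs_sub_le (c := c) (R := r) (a := 0) (b := 2 * π) hr.ne'
      (by rw [zero_sub, abs_neg, abs_of_pos (by positivity)])
    rw [uIoc_of_le (by positivity)] at hinj
    exact hinj hθ hφ (h1.symm.trans h2)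
  have h0 : volume ({θ | θ ∈ Ioc 0 (2 * π) ∧ z = circleMap c r θ} : Set ℝ) = 0 :=
    hsub.measure_zero _
  rw [ae_iff]
  refine measure_mono_null ?_ h0
  intro θ hθ
  simp only [mem_ofPred_eq, Classical.not_imp, not_not] at hθ
  exact hθ

/-- potential of the uniform distribution on a circle -/
lemma circle_potential (z c : ℂ) {r D : ℝ} (hr : 0 < r) (hD : ∀ θ, ‖z - circleMap c r θ‖ ≤ D) :
    ∫⁻ θ, ker D z (circleMap c r θ) ∂nu =
      ENNReal.ofReal (log D - (log r + log⁺ (r⁻¹ * ‖c - z‖))) := by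
  have h1 : ∫⁻ θ, ker D z (circleMap c r θ) ∂nu =
      ∫⁻ θ, ENNReal.ofReal (log D - log ‖circleMap c r θ - z‖) ∂nu := by
    refine lintegral_congr_ae ?_
    filter_upwards [ae_ne z c hr] with θ hθ
    unfold ker
    rw [if_neg hθ, norm_sub_rev]
  have hint : IntervalIntegrable (fun θ => log ‖circleMap c r θ - z‖) volume 0 (2 * π) :=
    circleIntegrable_log_norm_sub_const (a := z) (c := c) r
  have hF : Integrable (fun θ => log D - log ‖circleMap c r θ - z‖) nu :=
    (integrable_const _).sub (integrable_nu hint)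
  rw [h1, ← ofReal_integral_eq_lintegral_ofReal hF ?_]
  · congr 1
    rw [integral_sub (integrable_const _) (integrable_nu hint), integral_const, integral_nu]
    simp only [probReal_univ, one_smul]
    have := circleAverage_log_norm_sub_const_eq_log_radius_add_posLog (a := z) (c := c) hr.ne'
    rw [circleAverage_def, smul_eq_mul] at this
    rw [this]
  · filter_upwards [ae_ne z c hr] with θ hθ
    have hpos : 0 < ‖circleMap c r θ - z‖ := norm_pos_iff.2 (sub_ne_zero.2 hθ.symm)
    have h2 : ‖circleMap c r θ - z‖ ≤ D := by rw [norm_sub_rev]; exact hD θ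
    have := log_le_log hpos h2
    simp only [Pi.zero_apply]
    linarith

/-- mutual energy of two circles -/
lemma two_circles (a b : ℂ) {r D : ℝ} (hr : 0 < r)
    (hD : ∀ θ φ, ‖circleMap a r θ - circleMap b r φ‖ ≤ D)
    (hD' : ∀ θ, ‖b - circleMap a r θ‖ ≤ D) :
    ∫⁻ θ, ∫⁻ φ, ker D (circleMap a r θ) (circleMap b r φ) ∂nu ∂nu ≤
      if a = b then ENNReal.ofReal (log D - log r) else ENNReal.ofReal (log D - log ‖a - b‖) := by
  by_cases hab : a = b
  · rw [if_pos hab]
    calc ∫⁻ θ, ∫⁻ φ, ker D (circleMap a r θ) (circleMap b r φ) ∂nu ∂nu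
        ≤ ∫⁻ _θ : ℝ, ENNReal.ofReal (log D - log r) ∂nu := by
          refine lintegral_mono fun θ => ?_
          rw [circle_potential _ _ hr (hD θ)]
          refine ENNReal.ofReal_le_ofReal ?_
          have : 0 ≤ log⁺ (r⁻¹ * ‖b - circleMap a r θ‖) := posLog_nonneg
          linarith
      _ = _ := by simp
  · rw [if_neg hab]
    calc ∫⁻ θ, ∫⁻ φ, ker D (circleMap a r θ) (circleMap b r φ) ∂nu ∂nu
        ≤ ∫⁻ θ, ker D b (circleMap a r θ) ∂nu := by
          refine lintegral_mono fun θ => ?_
          rw [circle_potential _ _ hr (hD θ)]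
          by_cases hb : b = circleMap a r θ
          · rw [← hb]; unfold ker; rw [if_pos rfl]; exact le_top
          · unfold ker
            rw [if_neg hb]
            refine ENNReal.ofReal_le_ofReal ?_
            have hpos : 0 < ‖b - circleMap a r θ‖ := norm_pos_iff.2 (sub_ne_zero.2 hb)
            have h1 : log (r⁻¹ * ‖b - circleMap a r θ‖) ≤ log⁺ (r⁻¹ * ‖b - circleMap a r θ‖) :=
              le_max_right _ _
            rw [log_mul (by positivity) hpos.ne', log_inv] at h1
            linarith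
      _ = ENNReal.ofReal (log D - (log r + log⁺ (r⁻¹ * ‖a - b‖))) := circle_potential _ _ hr hD'
      _ ≤ _ := by
          refine ENNReal.ofReal_le_ofReal ?_
          have hpos : 0 < ‖a - b‖ := norm_pos_iff.2 (sub_ne_zero.2 hab)
          have h1 : log (r⁻¹ * ‖a - b‖) ≤ log⁺ (r⁻¹ * ‖a - b‖) := le_max_right _ _
          rw [log_mul (by positivity) hpos.ne', log_inv] at h1
          linarith

/-- uniform distribution on the circles of radius `r` about the points `a j` -/
noncomputable def smear {n : ℕ} (a : Fin n → ℂ) (r : ℝ) : Measure ℂ :=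
  (n:ℝ≥0∞)⁻¹ • ∑ j, Measure.map (circleMap (a j) r) nu

lemma measurable_circleMap (c : ℂ) (r : ℝ) : Measurable (circleMap c r) :=
  (continuous_circleMap c r).measurable

lemma smear_prob {n : ℕ} (hn : 0 < n) (a : Fin n → ℂ) (r : ℝ) :
    IsProbabilityMeasure (smear a r) := by
  constructor
  unfold smear
  rw [Measure.smul_apply, Measure.finsetSum_apply, smul_eq_mul]
  have : ∀ j, Measure.map (circleMap (a j) r) nu univ = 1 := fun j => by
    rw [Measure.map_apply (measurable_circleMap _ _) MeasurableSet.univ, preimage_univ,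
      measure_univ]
  simp only [this]
  rw [Finset.sum_const, Finset.card_univ, Fintype.card_fin, nsmul_eq_mul, mul_one]
  exact ENNReal.inv_mul_cancel (by exact_mod_cast hn.ne') (by simp)

lemma smear_supp {n : ℕ} (a : Fin n → ℂ) {r : ℝ} {E : Set ℂ} (hE : MeasurableSet E)
    (h : ∀ j θ, circleMap (a j) r θ ∈ E) : smear a r Eᶜ = 0 := by
  unfold smear
  rw [Measure.smul_apply, Measure.finsetSum_apply]
  have : ∀ j, Measure.map (circleMap (a j) r) nu Eᶜ = 0 := fun j => by
    rw [Measure.map_apply (measurable_circleMap _ _) hE.compl]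
    have : circleMap (a j) r ⁻¹' Eᶜ = ∅ := by
      ext θ; simp [h j θ]
    rw [this, measure_empty]
  simp [this]

lemma lintegral_smear {n : ℕ} (a : Fin n → ℂ) (r : ℝ) {f : ℂ → ℝ≥0∞} (hf : Measurable f) :
    ∫⁻ z, f z ∂(smear a r) = (n:ℝ≥0∞)⁻¹ * ∑ j, ∫⁻ θ, f (circleMap (a j) r θ) ∂nu := by
  unfold smear
  rw [lintegral_smul_measure, lintegral_finsetSum_measure, smul_eq_mul]
  congr 1
  refine Finset.sum_congr rfl fun j _ => ?_
  rw [lintegral_map hf (measurable_circleMap _ _)]

lemma gen_smear {n : ℕ} (a : Fin n → ℂ) (r D : ℝ) :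
    gen D (smear a r) = (n:ℝ≥0∞)⁻¹ * ((n:ℝ≥0∞)⁻¹ * ∑ j, ∑ k,
      ∫⁻ θ, ∫⁻ φ, ker D (circleMap (a j) r θ) (circleMap (a k) r φ) ∂nu ∂nu) := by
  unfold gen
  have hk : Measurable fun z => ∫⁻ w, ker D z w ∂(smear a r) := by
    have : SFinite (smear a r) := by unfold smear; infer_instance
    exact (measurable_ker D).lintegral_prod_right'
  rw [lintegral_smear a r hk]
  congr 1
  rw [Finset.mul_sum]
  refine Finset.sum_congr rfl fun j _ => ?_
  have h1 : ∀ θ, ∫⁻ w, ker D (circleMap (a j) r θ) w ∂(smear a r) =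
      (n:ℝ≥0∞)⁻¹ * ∑ k, ∫⁻ φ, ker D (circleMap (a j) r θ) (circleMap (a k) r φ) ∂nu := fun θ =>
    lintegral_smear a r ((measurable_ker D).comp measurable_prodMk_left)
  simp_rw [h1]
  have hm : ∀ k, Measurable fun θ =>
      ∫⁻ φ, ker D (circleMap (a j) r θ) (circleMap (a k) r φ) ∂nu := by
    intro k
    have : Measurable fun p : ℝ × ℝ => ker D (circleMap (a j) r p.1) (circleMap (a k) r p.2) :=
      (measurable_ker D).comp (((measurable_circleMap _ _).comp measurable_fst).prodMk
        ((measurable_circleMap _ _).comp measurable_snd))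
    exact this.lintegral_prod_right'
  rw [lintegral_const_mul _ (Finset.measurable_sum _ fun k _ => hm k),
    lintegral_finsetSum _ fun k _ => hm k]

end Pool.Agent.R222.Fekete
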