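import Mathlib
import Pool.Agent.R222.Fekete.Defs
import Pool.Agent.R222.Fekete.Energy
import Pool.Agent.R222.Fekete.Circle

set_option autoImplicit false

open MeasureTheory Set Real Filter Topology
open scoped ENNReal

namespace Pool.Agent.R222.Fekete

/-- `∑_{i < j} log |w_i - w_j|` -/
noncomputable def logSum {n : ℕ} (w : Fin n → ℂ) : ℝ :=
  ∑ i, ∑ j ∈ Finset.Ioi i, log ‖w i - w j‖

lemma prod_eq {n : ℕ} (w : Fin n → ℂ) (hw : ∀ i j, i < j → w i ≠ w j) (e : ℝ) :
    ∏ i, ∏ j ∈ Finset.Ioi i, (ENNReal.ofReal ‖w i - w j‖) ^ e =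
      ENNReal.ofReal (exp (e * logSum w)) := by
  have h1 : ∀ i, ∏ j ∈ Finset.Ioi i, (ENNReal.ofReal ‖w i - w j‖) ^ e =
      ENNReal.ofReal (exp (∑ j ∈ Finset.Ioi i, e * log ‖w i - w j‖)) := by
    intro i
    rw [exp_sum, ENNReal.ofReal_prod_of_nonneg (fun _ _ => (exp_pos _).le)]
    refine Finset.prod_congr rfl fun j hj => ?_
    have hpos : 0 < ‖w i - w j‖ := norm_pos_iff.2 (sub_ne_zero.2 (hw i j (Finset.mem_Ioi.1 hj)))
    rw [ENNReal.ofReal_rpow_of_pos hpos, rpow_def_of_pos hpos, mul_comm]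
  simp_rw [h1]
  rw [← ENNReal.ofReal_prod_of_nonneg (fun _ _ => (exp_pos _).le), ← exp_sum]
  congr 2
  unfold logSum
  rw [Finset.mul_sum]
  refine Finset.sum_congr rfl fun i _ => ?_
  rw [Finset.mul_sum]

lemma prod_eq_zero {n : ℕ} (w : Fin n → ℂ) {e : ℝ} (he : 0 < e)
    (hw : ¬ ∀ i j, i < j → w i ≠ w j) :
    ∏ i, ∏ j ∈ Finset.Ioi i, (ENNReal.ofReal ‖w i - w j‖) ^ e = 0 := by
  push Not at hw
  obtain ⟨i, j, hij, h⟩ := hw
  refine Finset.prod_eq_zero (Finset.mem_univ i) (Finset.prod_eq_zero (Finset.mem_Ioi.2 hij) ?_)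
  rw [h, sub_self, norm_zero, ENNReal.ofReal_zero, ENNReal.zero_rpow_of_pos he]

/-- the number of pairs -/
lemma pairs_count (n : ℕ) : ∑ i : Fin n, ∑ _j ∈ Finset.Ioi i, (1:ℝ) = n * (n - 1) / 2 := by
  have h1 : ∀ i : Fin n, ∑ _j ∈ Finset.Ioi i, (1:ℝ) = ((n - 1 - (i:ℕ) : ℕ) : ℝ) := by
    intro i
    rw [Finset.sum_const, Fin.card_Ioi, nsmul_eq_mul, mul_one]
  simp_rw [h1]
  rw [← Finset.sum_range (fun i => ((n - 1 - i : ℕ) : ℝ)), Finset.sum_range_reflect
    (fun i => (i:ℝ)) n]
  induction n with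
  | zero => simp
  | succ n ih =>
    rw [Finset.sum_range_succ, ih (fun i => by rw [Finset.sum_const, Fin.card_Ioi, nsmul_eq_mul,
      mul_one])]
    push_cast
    ring

lemma sum_symm {n : ℕ} (f : Fin n → Fin n → ℝ) (hf : ∀ i j, f i j = f j i) :
    ∑ i, ∑ j, f i j = ∑ i, f i i + 2 * ∑ i, ∑ j ∈ Finset.Ioi i, f i j := by
  have h1 : ∀ i, ∑ j, f i j = f i i + ∑ j ∈ Finset.Ioi i, f i j + ∑ j ∈ Finset.Iio i, f i j := by
    intro i
    have hu : (Finset.univ : Finset (Fin n)) = insert i (Finset.Ioi i ∪ Finset.Iio i) := by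
      ext j
      simp only [Finset.mem_univ, Finset.mem_insert, Finset.mem_union, Finset.mem_Ioi,
        Finset.mem_Iio, true_iff]
      rcases lt_trichotomy i j with h | h | h
      · exact Or.inr (Or.inl h)
      · exact Or.inl h.symm
      · exact Or.inr (Or.inr h)
    rw [hu, Finset.sum_insert (by simp), Finset.sum_union, add_assoc]
    rw [Finset.disjoint_left]
    intro j hj hj'
    exact absurd (Finset.mem_Ioi.1 hj) (not_lt.2 (Finset.mem_Iio.1 hj').le)
  simp_rw [h1]
  rw [Finset.sum_add_distrib, Finset.sum_add_distrib, two_mul, add_assoc]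
  congr 2
  rw [Finset.sum_comm' (t' := Finset.univ) (s' := fun j => Finset.Ioi j)]
  · exact Finset.sum_congr rfl fun j _ => Finset.sum_congr rfl fun i _ => hf i j
  · intro i j
    simp

/-- **Upper bound of the capacity by the n-th diameter.** -/
theorem capacity_le {n : ℕ} (hn : 2 ≤ n) {E : Set ℂ} {D : ℝ} (hD : 1 ≤ D)
    (hE : ∀ z ∈ E, ∀ w ∈ E, ‖z - w‖ ≤ D) : capacity E ≤ nthDiam n E := by
  have hn' : (2:ℝ) ≤ n := by exact_mod_cast hn
  have key : ∀ μ : Measure ℂ, IsProbabilityMeasure μ → μ Eᶜ = 0 →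
      EReal.exp (energy μ) ≤ nthDiam n E := by
    intro μ hμ hμE
    rw [energy_eq hμE hD hE]
    by_cases hG : gen D μ = ⊤
    · rw [hG, EReal.coe_ennreal_top, EReal.sub_top, EReal.exp_bot]
      exact zero_le
    -- a good configuration
    have hmeas : ∀ i j : Fin n, Measurable fun z : Fin n → ℂ => ker D (z i) (z j) := fun i j =>
      Measurable.comp (g := fun p : ℂ × ℂ => ker D p.1 p.2) (f := fun z : Fin n → ℂ => (z i, z j))
        (measurable_ker D) ((measurable_pi_apply i).prodMk (measurable_pi_apply j))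
    have hpair : ∀ i j : Fin n, i ≠ j →
        ∫⁻ z, ker D (z i) (z j) ∂(Measure.pi fun _ : Fin n => μ) = gen D μ := by
      intro i j hij
      have hind := (ProbabilityTheory.iIndepFun_pi (μ := fun _ : Fin n => μ)
        (X := fun _ => (id : ℂ → ℂ)) (fun _ => aemeasurable_id)).indepFun hij
      have hmap := (ProbabilityTheory.indepFun_iff_map_prod_eq_prod_map_map
        (measurable_pi_apply i).aemeasurable (measurable_pi_apply j).aemeasurable).1 hind
      have e1 : Measure.map (fun z : Fin n → ℂ => z i) (Measure.pi fun _ : Fin n => μ) = μ :=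
        (measurePreserving_eval (fun _ : Fin n => μ) i).map_eq
      have e2 : Measure.map (fun z : Fin n → ℂ => z j) (Measure.pi fun _ : Fin n => μ) = μ :=
        (measurePreserving_eval (fun _ : Fin n => μ) j).map_eq
      have hmap' : Measure.map (fun z : Fin n → ℂ => (z i, z j)) (Measure.pi fun _ : Fin n => μ)
          = μ.prod μ := by
        have h3 : Measure.map (fun z : Fin n → ℂ => (z i, z j)) (Measure.pi fun _ : Fin n => μ)
            = (Measure.map (fun z : Fin n → ℂ => z i) (Measure.pi fun _ : Fin n => μ)).prod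
              (Measure.map (fun z : Fin n → ℂ => z j) (Measure.pi fun _ : Fin n => μ)) := hmap
        rw [h3, e1, e2]
      have : ∫⁻ z, ker D (z i) (z j) ∂(Measure.pi fun _ : Fin n => μ) =
          ∫⁻ p, ker D p.1 p.2 ∂(Measure.map (fun z : Fin n → ℂ => (z i, z j))
            (Measure.pi fun _ : Fin n => μ)) := by
        rw [lintegral_map (measurable_ker D)
          ((measurable_pi_apply i).prodMk (measurable_pi_apply j))]
      rw [this, hmap', lintegral_prod _ (measurable_ker D).aemeasurable]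
      rfl
    set F : (Fin n → ℂ) → ℝ≥0∞ := fun z => ∑ i, ∑ j ∈ Finset.Ioi i, ker D (z i) (z j) with hF
    have hFm : Measurable F :=
      Finset.measurable_sum _ fun i _ => Finset.measurable_sum _ fun j _ => hmeas i j
    have hnull : (Measure.pi fun _ : Fin n => μ) {z | ∀ i, z i ∈ E}ᶜ = 0 := by
      have : {z : Fin n → ℂ | ∀ i, z i ∈ E}ᶜ ⊆ ⋃ i, (fun z : Fin n → ℂ => z i) ⁻¹' Eᶜ := by
        intro z hz
        simp only [mem_compl_iff, mem_ofPred_eq, not_forall] at hz
        obtain ⟨i, hi⟩ := hz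
        exact mem_iUnion.2 ⟨i, hi⟩
      refine measure_mono_null this (measure_iUnion_null fun i => ?_)
      exact (Measure.quasiMeasurePreserving_eval (fun _ : Fin n => μ) i).preimage_null hμE
    obtain ⟨z, hzE, hz⟩ := exists_notMem_null_le_lintegral hFm.aemeasurable hnull
    simp only [mem_compl_iff, mem_ofPred_eq, not_not] at hzE
    have hint : ∫⁻ z, F z ∂(Measure.pi fun _ : Fin n => μ)
        = ∑ i : Fin n, ∑ _j ∈ Finset.Ioi i, gen D μ := by
      simp only [hF]
      rw [lintegral_finsetSum _ (fun i _ => Finset.measurable_sum _ fun j _ => hmeas i j)]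
      refine Finset.sum_congr rfl fun i _ => ?_
      rw [lintegral_finsetSum _ (fun j _ => hmeas i j)]
      refine Finset.sum_congr rfl fun j hj => ?_
      exact hpair i j (Finset.mem_Ioi.1 hj).ne
    rw [hint] at hz
    set g : ℝ := (gen D μ).toReal with hg
    have hgen : gen D μ = ENNReal.ofReal g := (ENNReal.ofReal_toReal hG).symm
    have hg0 : 0 ≤ g := ENNReal.toReal_nonneg
    have hsumtop : ∑ i : Fin n, ∑ _j ∈ Finset.Ioi i, gen D μ ≠ ⊤ :=
      ENNReal.sum_ne_top.2 fun i _ => ENNReal.sum_ne_top.2 fun j _ => hG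
    have hFtop : F z ≠ ⊤ := (hz.trans_lt hsumtop.lt_top).ne
    have hkt : ∀ i j : Fin n, i < j → ker D (z i) (z j) ≠ ⊤ := by
      intro i j hij
      exact ENNReal.sum_ne_top.1 (ENNReal.sum_ne_top.1 hFtop i (Finset.mem_univ i)) j
        (Finset.mem_Ioi.2 hij)
    have hdist : ∀ i j : Fin n, i < j → z i ≠ z j := by
      intro i j hij h
      refine hkt i j hij ?_
      unfold ker
      rw [if_pos h]
    have hkr : ∀ i j : Fin n, i < j → ker D (z i) (z j)
        = ENNReal.ofReal (log D - log ‖z i - z j‖) := by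
      intro i j hij
      unfold ker
      rw [if_neg (hdist i j hij)]
    have hkn : ∀ i j : Fin n, i < j → 0 ≤ log D - log ‖z i - z j‖ := by
      intro i j hij
      have hpos : 0 < ‖z i - z j‖ := norm_pos_iff.2 (sub_ne_zero.2 (hdist i j hij))
      linarith [log_le_log hpos (hE _ (hzE i) _ (hzE j))]
    have hreal : ∑ i : Fin n, ∑ j ∈ Finset.Ioi i, (log D - log ‖z i - z j‖) ≤
        ∑ i : Fin n, ∑ _j ∈ Finset.Ioi i, g := by
      have e1 : F z = ENNReal.ofReal
          (∑ i : Fin n, ∑ j ∈ Finset.Ioi i, (log D - log ‖z i - z j‖)) := by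
        rw [ENNReal.ofReal_sum_of_nonneg (fun i _ => Finset.sum_nonneg fun j hj =>
          hkn i j (Finset.mem_Ioi.1 hj))]
        refine Finset.sum_congr rfl fun i _ => ?_
        rw [ENNReal.ofReal_sum_of_nonneg (fun j hj => hkn i j (Finset.mem_Ioi.1 hj))]
        exact Finset.sum_congr rfl fun j hj => hkr i j (Finset.mem_Ioi.1 hj)
      have e2 : ∑ i : Fin n, ∑ _j ∈ Finset.Ioi i, gen D μ = ENNReal.ofReal
          (∑ i : Fin n, ∑ _j ∈ Finset.Ioi i, g) := by
        rw [ENNReal.ofReal_sum_of_nonneg (fun i _ => Finset.sum_nonneg fun j hj => hg0)]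
        refine Finset.sum_congr rfl fun i _ => ?_
        rw [ENNReal.ofReal_sum_of_nonneg (fun j hj => hg0)]
        exact Finset.sum_congr rfl fun j hj => hgen
      rw [e1, e2] at hz
      exact (ENNReal.ofReal_le_ofReal_iff (Finset.sum_nonneg fun i _ =>
        Finset.sum_nonneg fun j _ => hg0)).1 hz
    have hpc := pairs_count n
    have hc : ∀ x : ℝ, ∑ i : Fin n, ∑ _j ∈ Finset.Ioi i, x = n * (n - 1) / 2 * x := by
      intro x
      rw [← hpc, Finset.sum_mul]
      refine Finset.sum_congr rfl fun i _ => ?_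
      rw [Finset.sum_mul]
      simp
    have hS : (n:ℝ) * (n - 1) / 2 * (log D - g) ≤ logSum z := by
      have e3 : ∑ i : Fin n, ∑ j ∈ Finset.Ioi i, (log D - log ‖z i - z j‖)
          = n * (n - 1) / 2 * log D - logSum z := by
        rw [← hc]
        unfold logSum
        rw [← Finset.sum_sub_distrib]
        refine Finset.sum_congr rfl fun i _ => ?_
        rw [← Finset.sum_sub_distrib]
      rw [e3, hc] at hreal
      linarith
    have hcoe : ((log D : ℝ) : EReal) - ((gen D μ : ℝ≥0∞) : EReal) = ((log D - g : ℝ) : EReal) := by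
      have : gen D μ = ((gen D μ).toNNReal : ℝ≥0∞) := (ENNReal.coe_toNNReal hG).symm
      rw [this, EReal.coe_nnreal_eq_coe_real, ← EReal.coe_sub]
      rfl
    rw [hcoe, EReal.exp_coe]
    have hne : (n:ℝ) * (n - 1) ≠ 0 := by
      have : (0:ℝ) < n * (n - 1) := mul_pos (by linarith) (by linarith)
      exact this.ne'
    have hval : ENNReal.ofReal (exp (log D - g)) ≤
        ∏ i, ∏ j ∈ Finset.Ioi i, (ENNReal.ofReal ‖z i - z j‖) ^ (2 / ((n:ℝ) * (n - 1))) := by
      rw [prod_eq z hdist]
      refine ENNReal.ofReal_le_ofReal (exp_le_exp.2 ?_)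
      have h2 : 0 ≤ 2 / ((n:ℝ) * (n - 1)) := div_nonneg (by norm_num)
        (mul_nonneg (by linarith) (by linarith))
      have h3 := mul_le_mul_of_nonneg_left hS h2
      have h4 : 2 / ((n:ℝ) * (n - 1)) * ((n:ℝ) * (n - 1) / 2 * (log D - g)) = log D - g := by
        generalize (n:ℝ) * (n - 1) = Q at hne
        field_simp
      rw [h4] at h3
      exact h3
    refine hval.trans ?_
    unfold nthDiam
    exact le_iSup₂_of_le z hzE le_rfl
  unfold capacity
  rw [← ENNReal.exp_log (nthDiam n E) , EReal.exp_le_exp_iff]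
  refine iSup_le fun μ => iSup₂_le fun hμ hμE => ?_
  have := key μ hμ hμE
  rwa [← ENNReal.exp_log (nthDiam n E), EReal.exp_le_exp_iff] at this

/-- **Lower bound of the capacity of a neighbourhood** by smearing out a configuration. -/
theorem capacity_ge {n : ℕ} (hn : 0 < n) {K : Set ℂ} (hK : IsCompact K) (hne : K.Nonempty)
    {ε lam : ℝ} (hε : 0 < ε) (hl0 : 0 < lam) (hl1 : lam < 1) {D : ℝ} (hD : 1 ≤ D) (hεD : ε ≤ D)
    (hE : ∀ z ∈ Metric.cthickening ε K, ∀ w ∈ Metric.cthickening ε K, ‖z - w‖ ≤ D)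
    (w : Fin n → ℂ) (hw : ∀ i, w i ∈ Metric.cthickening ε K) (hdist : ∀ i j, i < j → w i ≠ w j) :
    ENNReal.ofReal (exp (((n:ℝ) ^ 2)⁻¹ * (2 * logSum w + n * (n - 1) * log lam +
      n * log ((1 - lam) * ε)))) ≤ capacity (Metric.cthickening ε K) := by
  have hn' : (0:ℝ) < n := by exact_mod_cast hn
  set r := (1 - lam) * ε with hr
  have hrpos : 0 < r := mul_pos (by linarith) hε
  have hrD : r ≤ D := by
    have : r ≤ 1 * ε := mul_le_mul_of_nonneg_right (by linarith) hε.le
    linarith
  -- nearest points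
  have hnear : ∀ z : ℂ, ∃ p ∈ K, Metric.infDist z K = dist z p := fun z =>
    hK.exists_infDist_eq_dist hne z
  choose p hpK hpd using hnear
  have hmin : ∀ z, ∀ q ∈ K, dist z (p z) ≤ dist z q := fun z q hq => by
    rw [← hpd]; exact Metric.infDist_le_dist_of_mem hq
  have hpε : ∀ z ∈ Metric.cthickening ε K, dist z (p z) ≤ ε := by
    intro z hz
    rw [← hpd]
    rw [Metric.mem_cthickening_iff] at hz
    rw [Metric.infDist]
    have := ENNReal.toReal_mono ENNReal.ofReal_ne_top hz
    rwa [ENNReal.toReal_ofReal hε.le] at this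
  set φ : ℂ → ℂ := fun z => p z + (lam:ℂ) * (z - p z) with hφ
  have hφp : ∀ z ∈ Metric.cthickening ε K, dist (φ z) (p z) ≤ lam * ε := by
    intro z hz
    rw [dist_eq_norm]
    have : φ z - p z = (lam:ℂ) * (z - p z) := by simp only [hφ]; ring
    rw [this, norm_mul, Complex.norm_real, Real.norm_eq_abs, abs_of_pos hl0, ← dist_eq_norm]
    exact mul_le_mul_of_nonneg_left (hpε z hz) hl0.le
  have hφd : ∀ z u : ℂ, lam * ‖z - u‖ ≤ ‖φ z - φ u‖ := by
    intro z u
    have h1 : ‖z - p z‖ ^ 2 ≤ ‖z - p u‖ ^ 2 := by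
      have := hmin z (p u) (hpK u)
      rw [dist_eq_norm, dist_eq_norm] at this
      exact pow_le_pow_left₀ (norm_nonneg _) this 2
    have h2 : ‖u - p u‖ ^ 2 ≤ ‖u - p z‖ ^ 2 := by
      have := hmin u (p z) (hpK z)
      rw [dist_eq_norm, dist_eq_norm] at this
      exact pow_le_pow_left₀ (norm_nonneg _) this 2
    have h3 : (lam * ‖z - u‖) ^ 2 ≤ ‖φ z - φ u‖ ^ 2 := by
      rw [mul_pow]
      simp only [← Complex.normSq_eq_norm_sq, Complex.normSq_apply, hφ, Complex.add_re,
        Complex.add_im, Complex.sub_re, Complex.sub_im, Complex.mul_re, Complex.mul_im,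
        Complex.ofReal_re, Complex.ofReal_im] at h1 h2 ⊢
      nlinarith [mul_pos hl0 (show 0 < 1 - lam by linarith),
        mul_nonneg (sq_nonneg (1 - lam)) (sq_nonneg ((p z).re - (p u).re)),
        mul_nonneg (sq_nonneg (1 - lam)) (sq_nonneg ((p z).im - (p u).im)),
        mul_nonneg (mul_pos hl0 (show 0 < 1 - lam by linarith)).le (add_nonneg
          (sub_nonneg.2 h1) (sub_nonneg.2 h2))]
    exact (pow_le_pow_iff_left₀ (by positivity) (norm_nonneg _) two_ne_zero).1 h3
  set a : Fin n → ℂ := fun i => φ (w i) with ha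
  have hwne : ∀ i j, i ≠ j → w i ≠ w j := by
    intro i j hij
    rcases lt_or_gt_of_ne hij with h | h
    · exact hdist i j h
    · exact (hdist j i h).symm
  have hane : ∀ i j, i ≠ j → a i ≠ a j := by
    intro i j hij h
    have h1 := hφd (w i) (w j)
    have h2 : ‖a i - a j‖ = 0 := by rw [h, sub_self, norm_zero]
    have h3 : 0 < ‖w i - w j‖ := norm_pos_iff.2 (sub_ne_zero.2 (hwne i j hij))
    have h4 : 0 < lam * ‖w i - w j‖ := mul_pos hl0 h3
    have h5 : lam * ‖w i - w j‖ ≤ ‖a i - a j‖ := h1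
    linarith
  have hcirc : ∀ j θ, circleMap (a j) r θ ∈ Metric.cthickening ε K := by
    intro j θ
    refine Metric.mem_cthickening_of_dist_le _ (p (w j)) ε K (hpK _) ?_
    have h1 : dist (circleMap (a j) r θ) (a j) = r := by
      rw [dist_eq_norm]; simp [circleMap, abs_of_pos hrpos]
    calc dist (circleMap (a j) r θ) (p (w j))
        ≤ dist (circleMap (a j) r θ) (a j) + dist (a j) (p (w j)) := dist_triangle _ _ _
      _ ≤ r + lam * ε := by rw [h1]; linarith [hφp (w j) (hw j)]
      _ = ε := by rw [hr]; ring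
  have haE : ∀ j, a j ∈ Metric.cthickening ε K := by
    intro j
    refine Metric.mem_cthickening_of_dist_le _ (p (w j)) ε K (hpK _) ?_
    have := hφp (w j) (hw j)
    nlinarith
  have hprob : IsProbabilityMeasure (smear a r) := smear_prob hn a r
  have hsupp : smear a r (Metric.cthickening ε K)ᶜ = 0 :=
    smear_supp a Metric.isClosed_cthickening.measurableSet hcirc
  have hen := energy_eq hsupp hD hE
  -- upper bound for `gen`
  set c : Fin n → Fin n → ℝ := fun i j =>
    if i = j then log D - log r else log D - log ‖a i - a j‖ with hc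
  have hcn : ∀ i j, 0 ≤ c i j := by
    intro i j
    simp only [hc]
    split_ifs with h
    · linarith [log_le_log hrpos hrD]
    · have hpos : 0 < ‖a i - a j‖ := norm_pos_iff.2 (sub_ne_zero.2 (hane i j h))
      linarith [log_le_log hpos (hE _ (haE i) _ (haE j))]
  have hgen : gen D (smear a r) ≤ ENNReal.ofReal (((n:ℝ) ^ 2)⁻¹ * ∑ i, ∑ j, c i j) := by
    rw [gen_smear, ← mul_assoc]
    have e1 : ((n:ℝ≥0∞)⁻¹ * (n:ℝ≥0∞)⁻¹) = ENNReal.ofReal (((n:ℝ) ^ 2)⁻¹) := by
      rw [ENNReal.ofReal_inv_of_pos (by positivity), ENNReal.ofReal_pow hn'.le,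
        ENNReal.ofReal_natCast, ← ENNReal.mul_inv (by simp) (by simp), sq]
    rw [e1, ENNReal.ofReal_mul (by positivity)]
    refine mul_le_mul_right ?_ _
    rw [ENNReal.ofReal_sum_of_nonneg (fun i _ => Finset.sum_nonneg fun j _ => hcn i j)]
    refine Finset.sum_le_sum fun i _ => ?_
    rw [ENNReal.ofReal_sum_of_nonneg (fun j _ => hcn i j)]
    refine Finset.sum_le_sum fun j _ => ?_
    refine (two_circles (a i) (a j) hrpos (D := D) (fun θ φ => hE _ (hcirc i θ) _ (hcirc j φ))
      (fun θ => hE _ (haE j) _ (hcirc i θ))).trans ?_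
    simp only [hc]
    by_cases hij : i = j
    · rw [if_pos hij, if_pos (by rw [hij])]
    · rw [if_neg hij, if_neg (hane i j hij)]
  have hcsum : ∑ i, ∑ j, c i j = n ^ 2 * log D - n * log r - 2 * logSum a := by
    rw [sum_symm c (fun i j => by
      simp only [hc]
      by_cases hij : i = j
      · rw [if_pos hij, if_pos hij.symm]
      · rw [if_neg hij, if_neg (Ne.symm hij), norm_sub_rev])]
    have e1 : ∑ i, c i i = n * (log D - log r) := by
      simp only [hc, if_true]
      rw [Finset.sum_const, Finset.card_univ, Fintype.card_fin, nsmul_eq_mul]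
    have e2 : ∑ i, ∑ j ∈ Finset.Ioi i, c i j = n * (n - 1) / 2 * log D - logSum a := by
      rw [← pairs_count n, Finset.sum_mul]
      unfold logSum
      rw [← Finset.sum_sub_distrib]
      refine Finset.sum_congr rfl fun i _ => ?_
      rw [Finset.sum_mul, ← Finset.sum_sub_distrib]
      refine Finset.sum_congr rfl fun j hj => ?_
      simp only [hc]
      rw [if_neg (Finset.mem_Ioi.1 hj).ne, one_mul]
    rw [e1, e2]; ring
  have hlogSum : logSum w + n * (n - 1) / 2 * log lam ≤ logSum a := by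
    rw [← pairs_count n, Finset.sum_mul]
    unfold logSum
    rw [← Finset.sum_add_distrib]
    refine Finset.sum_le_sum fun i _ => ?_
    rw [Finset.sum_mul, ← Finset.sum_add_distrib]
    refine Finset.sum_le_sum fun j hj => ?_
    have hij : i ≠ j := (Finset.mem_Ioi.1 hj).ne
    have h3 : 0 < ‖w i - w j‖ := norm_pos_iff.2 (sub_ne_zero.2 (hwne i j hij))
    rw [one_mul, add_comm, ← log_mul hl0.ne' h3.ne']
    exact log_le_log (by positivity) (hφd _ _)
  have hgtop : gen D (smear a r) ≠ ⊤ := (hgen.trans_lt ENNReal.ofReal_lt_top).ne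
  have hcoe : energy (smear a r) = ((log D - (gen D (smear a r)).toReal : ℝ) : EReal) := by
    have : gen D (smear a r) = ((gen D (smear a r)).toNNReal : ℝ≥0∞) :=
      (ENNReal.coe_toNNReal hgtop).symm
    rw [hen]
    conv_lhs => rw [this]
    rw [EReal.coe_nnreal_eq_coe_real, ← EReal.coe_sub]
    rfl
  have hgr : (gen D (smear a r)).toReal ≤ ((n:ℝ) ^ 2)⁻¹ * ∑ i, ∑ j, c i j := by
    have h0 : 0 ≤ ((n:ℝ) ^ 2)⁻¹ * ∑ i, ∑ j, c i j :=
      mul_nonneg (by positivity) (Finset.sum_nonneg fun i _ => Finset.sum_nonneg fun j _ => hcn i j)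
    have := ENNReal.toReal_mono ENNReal.ofReal_ne_top hgen
    rwa [ENNReal.toReal_ofReal h0] at this
  have hfinal : ((n:ℝ) ^ 2)⁻¹ * (2 * logSum w + n * (n - 1) * log lam + n * log r) ≤
      log D - (gen D (smear a r)).toReal := by
    have h1 : ((n:ℝ) ^ 2)⁻¹ * ∑ i, ∑ j, c i j ≤ log D -
        ((n:ℝ) ^ 2)⁻¹ * (2 * logSum w + n * (n - 1) * log lam + n * log r) := by
      rw [hcsum]
      have h2 : ((n:ℝ) ^ 2)⁻¹ * (n ^ 2 * log D - n * log r - 2 * logSum a) =
          log D - ((n:ℝ) ^ 2)⁻¹ * (n * log r + 2 * logSum a) := by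
        field_simp
        ring
      rw [h2]
      have h3 : ((n:ℝ) ^ 2)⁻¹ * (2 * logSum w + n * (n - 1) * log lam + n * log r) ≤
          ((n:ℝ) ^ 2)⁻¹ * (n * log r + 2 * logSum a) :=
        mul_le_mul_of_nonneg_left (by linarith) (by positivity)
      linarith
    linarith
  calc ENNReal.ofReal (exp (((n:ℝ) ^ 2)⁻¹ * (2 * logSum w + n * (n - 1) * log lam + n * log r)))
      ≤ ENNReal.ofReal (exp (log D - (gen D (smear a r)).toReal)) :=
        ENNReal.ofReal_le_ofReal (exp_le_exp.2 hfinal)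
    _ = EReal.exp (energy (smear a r)) := by rw [hcoe, EReal.exp_coe]
    _ ≤ capacity (Metric.cthickening ε K) := by
        unfold capacity
        rw [EReal.exp_le_exp_iff]
        exact le_iSup_of_le (smear a r) (le_iSup₂_of_le hprob hsupp le_rfl)

/-- the error exponent -/
noncomputable def err (D : ℝ) (n : ℕ) : ℝ :=
  (1 / (n:ℝ)) * log D - (((n:ℝ) - 1) / n) * log (1 - 1 / (n:ℝ))
    - (1 / (n:ℝ)) * log ((1 - (1 - 1 / (n:ℝ))) * (1 / n))

lemma err_tendsto (D : ℝ) : Tendsto (err D) atTop (𝓝 0) := by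
  have h1 : Tendsto (fun n : ℕ => 1 / (n:ℝ)) atTop (𝓝 0) := tendsto_const_div_atTop_nhds_zero_nat 1
  have h2 : Tendsto (fun n : ℕ => log (1 - 1 / (n:ℝ))) atTop (𝓝 0) := by
    have h3 : Tendsto (fun n : ℕ => 1 - 1 / (n:ℝ)) atTop (𝓝 1) := by simpa using h1.const_sub 1
    have := (continuousAt_log (one_ne_zero)).tendsto.comp h3
    rw [log_one] at this
    exact this
  have h4 : Tendsto (fun n : ℕ => ((n:ℝ) - 1) / n) atTop (𝓝 1) := by
    have h3 : Tendsto (fun n : ℕ => 1 - 1 / (n:ℝ)) atTop (𝓝 1) := by simpa using h1.const_sub 1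
    refine h3.congr' ?_
    filter_upwards [eventually_gt_atTop 0] with n hn
    have : (0:ℝ) < n := by exact_mod_cast hn
    field_simp
  have h5 : Tendsto (fun n : ℕ => (1 / (n:ℝ)) * log ((1 - (1 - 1 / (n:ℝ))) * (1 / n))) atTop
      (𝓝 0) := by
    have h6 : Tendsto (fun x : ℝ => log x / x) atTop (𝓝 0) :=
      isLittleO_log_id_atTop.tendsto_div_nhds_zero
    have h7 : Tendsto (fun n : ℕ => -2 * (log (n:ℝ) / n)) atTop (𝓝 0) := by
      simpa using (h6.comp tendsto_natCast_atTop_atTop).const_mul (-2)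
    refine h7.congr' ?_
    filter_upwards [eventually_gt_atTop 0] with n hn
    have hn' : (0:ℝ) < n := by exact_mod_cast hn
    have : (1 - (1 - 1 / (n:ℝ))) * (1 / n) = ((n:ℝ) ^ 2)⁻¹ := by field_simp; ring
    rw [this, log_inv, log_pow]
    push_cast
    ring
  have h := ((h1.mul_const (log D)).sub (h4.mul h2)).sub h5
  have e : (0:ℝ) * log D - 1 * 0 - 0 = 0 := by ring
  rw [e] at h
  exact h

/-- **Main theorem.** -/
theorem ratio_tendsto {K : Set ℂ} (hK : IsCompact K) (hne : K.Nonempty) :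
    Tendsto (fun n : ℕ => nthDiam n (Metric.cthickening (1 / (n:ℝ)) K) /
      capacity (Metric.cthickening (1 / (n:ℝ)) K)) atTop (𝓝 1) := by
  obtain ⟨D, hD, hE⟩ : ∃ D : ℝ, 1 ≤ D ∧ ∀ z ∈ Metric.cthickening 1 K,
      ∀ w ∈ Metric.cthickening 1 K, ‖z - w‖ ≤ D := by
    have hb : Bornology.IsBounded (Metric.cthickening 1 K) := hK.cthickening.isBounded
    obtain ⟨C, hC⟩ := Metric.isBounded_iff.1 hb
    exact ⟨max 1 C, le_max_left _ _, fun z hz w hw => by
      rw [← dist_eq_norm]; exact (hC hz hw).trans (le_max_right _ _)⟩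
  have hmono : ∀ n : ℕ, 0 < n → Metric.cthickening (1 / (n:ℝ)) K ⊆ Metric.cthickening 1 K := by
    intro n hn
    refine Metric.cthickening_mono ?_ K
    rw [div_le_one (by exact_mod_cast hn)]
    exact_mod_cast hn
  have hup : Tendsto (fun n : ℕ => ENNReal.ofReal (exp (err D n))) atTop (𝓝 1) := by
    have h1 := (continuous_exp.tendsto 0).comp (err_tendsto D)
    rw [exp_zero] at h1
    have h2 := (ENNReal.continuous_ofReal.tendsto 1).comp h1
    rw [ENNReal.ofReal_one] at h2
    exact h2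
  have hev : ∀ᶠ n : ℕ in atTop, 1 ≤ nthDiam n (Metric.cthickening (1 / (n:ℝ)) K) /
      capacity (Metric.cthickening (1 / (n:ℝ)) K) ∧
      nthDiam n (Metric.cthickening (1 / (n:ℝ)) K) /
      capacity (Metric.cthickening (1 / (n:ℝ)) K) ≤ ENNReal.ofReal (exp (err D n)) := by
    filter_upwards [eventually_ge_atTop 2] with n hn
    have hn0 : 0 < n := by omega
    have hn' : (2:ℝ) ≤ n := by exact_mod_cast hn
    have hnpos : (0:ℝ) < n := by linarith
    set Kn := Metric.cthickening (1 / (n:ℝ)) K with hKn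
    have hEn : ∀ z ∈ Kn, ∀ w ∈ Kn, ‖z - w‖ ≤ D := fun z hz w hw =>
      hE z (hmono n hn0 hz) w (hmono n hn0 hw)
    have hε : 0 < 1 / (n:ℝ) := by positivity
    have hε1 : 1 / (n:ℝ) ≤ 1 / 2 := by
      exact one_div_le_one_div_of_le (by norm_num) hn'
    have hl0 : 0 < 1 - 1 / (n:ℝ) := by linarith
    have hl1 : 1 - 1 / (n:ℝ) < 1 := by linarith
    have hεD : 1 / (n:ℝ) ≤ D := by linarith
    have hcap_le : capacity Kn ≤ nthDiam n Kn := capacity_le hn hD hEn
    have he : 0 < 2 / ((n:ℝ) * (n - 1)) := div_pos (by norm_num) (mul_pos hnpos (by linarith))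
    -- positivity of the capacity
    have hcap_pos : capacity Kn ≠ 0 := by
      obtain ⟨q, hq⟩ := hne
      have hqn : q ∈ Kn := Metric.self_subset_cthickening K hq
      have := capacity_ge (n := 1) one_pos hK ⟨q, hq⟩ hε hl0 hl1 hD hεD hEn (fun _ => q)
        (fun _ => hqn) (fun i j hij => absurd hij (by rw [Subsingleton.elim i j]; exact lt_irrefl _))
      intro h0
      rw [← hKn, h0] at this
      have h2 := ENNReal.ofReal_eq_zero.1 (le_antisymm this bot_le)
      exact absurd h2 (not_le.2 (exp_pos _))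
    -- each value is controlled
    have hval : ∀ w : Fin n → ℂ, (∀ i, w i ∈ Kn) →
        ∏ i, ∏ j ∈ Finset.Ioi i, (ENNReal.ofReal ‖w i - w j‖) ^ (2 / ((n:ℝ) * (n - 1))) ≤
          capacity Kn * ENNReal.ofReal (exp (err D n)) := by
      intro w hw
      by_cases hdist : ∀ i j, i < j → w i ≠ w j
      · rw [prod_eq w hdist]
        have h1 := capacity_ge hn0 hK hne hε hl0 hl1 hD hεD hEn w hw hdist
        refine le_trans ?_ (mul_le_mul_left h1 _)
        rw [← ENNReal.ofReal_mul (exp_pos _).le, ← exp_add]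
        refine ENNReal.ofReal_le_ofReal (exp_le_exp.2 ?_)
        have hS : logSum w ≤ n * (n - 1) / 2 * log D := by
          rw [← pairs_count n, Finset.sum_mul]
          unfold logSum
          refine Finset.sum_le_sum fun i _ => ?_
          rw [Finset.sum_mul]
          refine Finset.sum_le_sum fun j hj => ?_
          rw [one_mul]
          have hpos : 0 < ‖w i - w j‖ :=
            norm_pos_iff.2 (sub_ne_zero.2 (hdist i j (Finset.mem_Ioi.1 hj)))
          exact log_le_log hpos (hEn _ (hw i) _ (hw j))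
        have hn1 : (0:ℝ) < n - 1 := by linarith
        have e1 : ((n:ℝ) ^ 2)⁻¹ * (2 * logSum w + n * (n - 1) * log (1 - 1 / (n:ℝ)) +
            n * log ((1 - (1 - 1 / (n:ℝ))) * (1 / n))) + err D n =
            2 * logSum w / n ^ 2 + (1 / (n:ℝ)) * log D := by
          unfold err
          field_simp
          ring
        rw [e1]
        have e2 : 2 / ((n:ℝ) * (n - 1)) * logSum w =
            2 * logSum w / n ^ 2 + (1 / (n:ℝ)) * (2 / ((n:ℝ) * (n - 1)) * logSum w) := by
          field_simp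
          ring
        rw [e2]
        have e3 : 2 / ((n:ℝ) * (n - 1)) * logSum w ≤ log D := by
          have := mul_le_mul_of_nonneg_left hS he.le
          have e4 : 2 / ((n:ℝ) * (n - 1)) * (n * (n - 1) / 2 * log D) = log D := by
            field_simp
          rw [e4] at this
          exact this
        have e5 := mul_le_mul_of_nonneg_left e3 hε.le
        linarith
      · rw [prod_eq_zero w he hdist]
        exact zero_le
    have hdiam : nthDiam n Kn ≤ capacity Kn * ENNReal.ofReal (exp (err D n)) := by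
      unfold nthDiam
      exact iSup₂_le hval
    have hdiamfin : nthDiam n Kn ≠ ⊤ := by
      have : nthDiam n Kn ≤ ENNReal.ofReal D := by
        unfold nthDiam
        refine iSup₂_le fun w hw => ?_
        by_cases hdist : ∀ i j, i < j → w i ≠ w j
        · rw [prod_eq w hdist]
          refine ENNReal.ofReal_le_ofReal ?_
          have hS : logSum w ≤ n * (n - 1) / 2 * log D := by
            rw [← pairs_count n, Finset.sum_mul]
            unfold logSum
            refine Finset.sum_le_sum fun i _ => ?_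
            rw [Finset.sum_mul]
            refine Finset.sum_le_sum fun j hj => ?_
            rw [one_mul]
            have hpos : 0 < ‖w i - w j‖ :=
              norm_pos_iff.2 (sub_ne_zero.2 (hdist i j (Finset.mem_Ioi.1 hj)))
            exact log_le_log hpos (hEn _ (hw i) _ (hw j))
          have hn1 : (0:ℝ) < n - 1 := by linarith
          have e3 : 2 / ((n:ℝ) * (n - 1)) * logSum w ≤ log D := by
            have := mul_le_mul_of_nonneg_left hS he.le
            have e4 : 2 / ((n:ℝ) * (n - 1)) * (n * (n - 1) / 2 * log D) = log D := by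
              field_simp
            rw [e4] at this
            exact this
          calc exp (2 / ((n:ℝ) * (n - 1)) * logSum w) ≤ exp (log D) := exp_le_exp.2 e3
            _ = D := exp_log (by linarith)
        · rw [prod_eq_zero w he hdist]
          exact zero_le
      exact (this.trans_lt ENNReal.ofReal_lt_top).ne
    have hcapfin : capacity Kn ≠ ⊤ := (hcap_le.trans_lt hdiamfin.lt_top).ne
    constructor
    · rw [ENNReal.le_div_iff_mul_le (Or.inl hcap_pos) (Or.inl hcapfin), one_mul]
      exact hcap_le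
    · refine ENNReal.div_le_of_le_mul ?_
      rw [mul_comm]
      exact hdiam
  exact tendsto_of_tendsto_of_tendsto_of_le_of_le' tendsto_const_nhds hup
    (hev.mono fun _ h => h.1) (hev.mono fun _ h => h.2)

end Pool.Agent.R222.Fekete
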